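import Pool.Agent.Run7.h242.SC.Main
import Pool.Agent.Run7.h242.SC.FKL
import Pool.Agent.Run7.h11.SC.PSI
import Pool.Agent.Run7.h13.SC.CONE
import Pool.Agent.Run7.h13.SC.IOD
import Pool.Agent.Run7.h13.SC.NRG
import Pool.Agent.Run7.h13.SC.TOP
import Pool.Agent.Run7.h298.SC.TRA
import Pool.Agent.Run7.h313.SC.NRB
import Pool.Agent.Run7.h313.SC.NST
import Pool.Agent.Run7.h416.SC.FKX
import Pool.Agent.Run7.h617.SC.WG
import Pool.Agent.Run7.h617.SC.WK
import Pool.Agent.Run7.h617.SC.WIND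
import Pool.Agent.Run7.h648.SC.NU
import Pool.Agent.Run7.h781.SC.INW
import Pool.Agent.Run7.h811.SC.GAMB
import Pool.Agent.Run7.h811.SC.GAMI
import Pool.Agent.Run7.h811.SC.GAML
import Pool.Agent.Run7.h888.SC.CPT
import Pool.Agent.Run7.h888.SC.GAMD
import Pool.Agent.Run7.h888.SC.LOOP
import Pool.Agent.Run7.h888.SC.OSC
import Pool.Agent.Run7.h942.SC.LEV
import Pool.Agent.Run7.h942.SC.NRA
import Pool.Agent.Run7.h984.SC.FK
import Pool.Agent.Run7.h984.SC.GAMC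
import Pool.Agent.Run7.h999.SC.FKB
import Pool.Agent.Run7.h999.SC.SEP

/-!
# Weak and strong closures of Sobolev homeomorphisms differ for all `n ≥ 3` and all `p < ∞`

Page MP_a6162f_an, Q1.  For every `n ≥ 3` there are bounded connected open sets `Ω, Ω'` of
`ℝ^n` and one map `f` which, for every `1 ≤ p < ∞`, lies in the weak but not in the strong
sequential closure of the homeomorphisms of `Ω` onto `Ω'` in `W^{1,p}`.

`E n` is Euclidean space, `weakClosure` and `strongClosure` are defined in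
`Pool/Agent/Run7/h242/SC/Defs.lean`.
-/

set_option autoImplicit false

namespace Pool.Agent.Results.MP_a6162f_an.NoPairOfExponents

open Run7.h242.SC
open scoped ENNReal

theorem result : ∀ n : ℕ, 3 ≤ n → ∃ Ω Ω' : Set (E n), IsOpen Ω ∧ IsOpen Ω' ∧
    IsConnected Ω ∧ IsConnected Ω' ∧ Bornology.IsBounded Ω ∧ Bornology.IsBounded Ω' ∧
    ∃ f : E n → E n, ∀ p : ℝ≥0∞, 1 ≤ p → p ≠ ⊤ →
      f ∈ weakClosure p Ω Ω' ∧ f ∉ strongClosure p Ω Ω' := by
  have hGAMB := Run7.h811.SC.t_GAMB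
  have hGAMI := Run7.h811.SC.t_GAMI
  have hGAML := Run7.h811.SC.t_GAML
  have hGAMD := Pool.Agent.Run7.h888.SC.t_GAMD
  have hGAMC := Run7.h984.SC.t_GAMC hGAML hGAMI hGAMB
  have hSEP := Run7.h999.SC.t_SEP hGAMB
  have hPSI := Run7.h11.SC.t_PSI Run7.h11.SC.t_PS Run7.h11.SC.t_PC Run7.h11.SC.t_PR
  have hCONE := Run7.h13.SC.t_CONE
  have hTOP := Run7.h13.SC.t_TOP
  have hIOD := Run7.h13.SC.t_IOD
  have hFKL := t_FKL hGAML hCONE
  have hFKB := Run7.h999.SC.t_FKB hGAMI hGAMB hCONE hSEP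
  have hFK := Run7.h984.SC.t_FK hPSI Run7.h416.SC.t_FKX hFKL hFKB hGAMB hTOP
  have hLEV := Pool.Agent.Run7.h942.SC.t_LEV hGAMI hGAMB hGAMD hSEP
  have hNUA := Run7.h648.SC.t_NUA hGAMB hGAMC hSEP
  have hNUB := Run7.h648.SC.t_NUB hGAMB hGAMC hSEP
  have hLOOP := Pool.Agent.Run7.h888.SC.t_LOOP
  have hOSC := Pool.Agent.Run7.h888.SC.t_OSC hNUA hNUB Run7.h617.SC.t_WIND hLOOP
  have hTRA := Run7.h242.SC.t_TRA
  have hNRA := Pool.Agent.Run7.h942.SC.NRA.t_NRA hLOOP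
  have hNRB := Run7.h313.SC.t_NRB hTRA hLOOP hTOP
  have hNRG := Run7.h13.SC.t_NRG hLOOP hNRA hNRB
  have hINW := Run7.h781.SC.t_INW hFK hIOD Run7.h617.SC.t_WG Pool.Agent.Run7.h888.SC.t_CPT
    Run7.h617.SC.t_WK hTOP hGAMB
  have hNST := Run7.h313.SC.t_NST hLEV hOSC hNRG hTOP
  exact t_MAIN hINW hNST hTOP hFK hIOD hGAMB

end Pool.Agent.Results.MP_a6162f_an.NoPairOfExponents
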